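import Pool.Agent.N526.CP.Stm
import Pool.Agent.H241R3.FV.TLoc
import Pool.Agent.H241R3.FV.TMat

/-! Project CPN (helper526): bounds for derivatives of Lipschitz maps in Riemannian charts. -/

set_option autoImplicit false

open MeasureTheory Metric Set Filter Topology InnerProductGeometry Matrix

namespace Pool.Agent.N137.CPN

open Pool.Agent.H241R3.FV Pool.Agent.N526.CP

theorem gnorm_smul' {n : ℕ} (G : Matrix (Fin n) (Fin n) ℝ) (t : ℝ) (ht : 0 ≤ t) (v : E n) :
    gnorm G (t • v) = t * gnorm G v := by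
  unfold gnorm
  have : (∑ i, ∑ j, (t • v) i * G i j * (t • v) j) = t ^ 2 * ∑ i, ∑ j, v i * G i j * v j := by
    rw [Finset.mul_sum]
    refine Finset.sum_congr rfl fun i _ => ?_
    rw [Finset.mul_sum]
    refine Finset.sum_congr rfl fun j _ => ?_
    simp only [PiLp.smul_apply, smul_eq_mul]
    ring
  rw [this, Real.sqrt_mul (sq_nonneg t), Real.sqrt_sq ht]

theorem gnorm_nonneg' {n : ℕ} (G : Matrix (Fin n) (Fin n) ℝ) (v : E n) : 0 ≤ gnorm G v :=
  Real.sqrt_nonneg _

/-- the derivative of a Lipschitz map in a chart is bounded by the Riemannian norm -/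
theorem norm_deriv_le {n : ℕ} {M W : Type} [MetricSpace M] [NormedAddCommGroup W]
    [NormedSpace ℝ W] (C : RChart n M) (K : NNReal) (v : M → W) (hv : LipschitzWith K v)
    (p : E n) (hp : p ∈ C.U) (L : E n →L[ℝ] W) (hL : HasFDerivAt (v ∘ C.map) L p) (w : E n) :
    ‖L w‖ ≤ K * gnorm (C.G p) w := by
  have h1 : ∀ ε : ℝ, 0 < ε → ‖L w‖ ≤ K * gnorm (C.G p) w + ε * (K * ‖w‖) := by
    intro ε hε
    obtain ⟨r, hr, hrU, hd⟩ := TLoc.taskLoc n M C p hp ε hε
    have h2 := (hL.hasLineDerivAt w).tendsto_slope_zero_right.norm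
    refine le_of_tendsto h2 ?_
    have h3 : ∀ᶠ t : ℝ in 𝓝[>] 0, p + t • w ∈ ball p r := by
      have : Tendsto (fun t : ℝ => p + t • w) (𝓝[>] 0) (𝓝 p) := by
        have hc : Continuous fun t : ℝ => p + t • w := by fun_prop
        have := hc.tendsto 0
        simp only [zero_smul, add_zero] at this
        exact this.mono_left nhdsWithin_le_nhds
      exact this (ball_mem_nhds p hr)
    filter_upwards [h3, self_mem_nhdsWithin] with t ht ht0
    have ht0' : (0 : ℝ) < t := ht0
    have h4 := hd _ ht p (mem_ball_self hr)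
    rw [add_sub_cancel_left, gnorm_smul' _ t ht0'.le, norm_smul, Real.norm_of_nonneg ht0'.le] at h4
    have h5 : ‖(v ∘ C.map) (p + t • w) - (v ∘ C.map) p‖ ≤
        K * (t * gnorm (C.G p) w + ε * (t * ‖w‖)) := by
      have := hv.dist_le_mul (C.map (p + t • w)) (C.map p)
      rw [dist_eq_norm] at this
      exact this.trans (by gcongr)
    rw [norm_smul, norm_inv, Real.norm_of_nonneg ht0'.le, inv_mul_le_iff₀ ht0']
    refine h5.trans (le_of_eq ?_)
    ring
  refine le_of_forall_pos_le_add fun δ hδ => ?_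
  have h6 := h1 (δ / (K * ‖w‖ + 1)) (by positivity)
  refine h6.trans ?_
  have : δ / (K * ‖w‖ + 1) * (K * ‖w‖) ≤ δ := by
    rw [div_mul_eq_mul_div, div_le_iff₀ (by positivity)]
    nlinarith [norm_nonneg w, K.coe_nonneg, mul_nonneg K.coe_nonneg (norm_nonneg w)]
  linarith

/-- bound of the Jacobian determinant of a Lipschitz map in a chart, at a point of
differentiability -/
theorem abs_det_le {n : ℕ} (hn : 0 < n) {M : Type} [MetricSpace M] (C : RChart n M) (K : NNReal)
    (v : M → E n) (hv : LipschitzWith K v) (p : E n) (hp : p ∈ C.U) (L : E n →L[ℝ] E n)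
    (hL : HasFDerivAt (v ∘ C.map) L p) : |L.det| ≤ (K : ℝ) ^ n * √(C.G p).det := by
  rw [det_mat]
  refine TMat.taskMat n hn (mat L) (C.G p) (C.pos_G p hp) K K.coe_nonneg fun A hA => ?_
  have h1 : ∀ j : Fin n, (mat L * A) j j ≤ K := by
    intro j
    let e : Sph n := ⟨EuclideanSpace.single j 1, by simp⟩
    have h2 : (mat L * A) j j = (L (act A (e : E n))) j := by
      have h3 : act A (e : E n) = ∑ k, A k j • EuclideanSpace.single k (1 : ℝ) := by
        ext k
        simp [act, e, Finset.sum_apply, Pi.single_apply]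
      rw [h3, map_sum, Matrix.mul_apply]
      simp [mat, mul_comm]
    rw [h2]
    have h4 := norm_deriv_le C K v hv p hp L hL (act A (e : E n))
    rw [gnorm_act _ _ hA, mul_one] at h4
    refine (le_abs_self _).trans (le_trans ?_ h4)
    have := PiLp.norm_apply_le (L (act A (e : E n))) j
    simpa using this
  calc (mat L * A).trace = ∑ j, (mat L * A) j j := rfl
    _ ≤ ∑ _j : Fin n, (K : ℝ) := Finset.sum_le_sum fun j _ => h1 j
    _ = n * K := by simp

theorem det_zero' {n : ℕ} (hn : 0 < n) : (0 : E n →L[ℝ] E n).det = 0 := by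
  show LinearMap.det ((0 : E n →L[ℝ] E n) : E n →ₗ[ℝ] E n) = 0
  rw [ContinuousLinearMap.coe_zero, LinearMap.det_zero]
  simp [finrank_euclideanSpace, hn.ne']

/-- bound of the Jacobian determinant of a Lipschitz map in a chart -/
theorem abs_det_fderiv_le {n : ℕ} (hn : 0 < n) {M : Type} [MetricSpace M] (C : RChart n M)
    (K : NNReal) (v : M → E n) (hv : LipschitzWith K v) (p : E n) (hp : p ∈ C.U) :
    |(fderiv ℝ (v ∘ C.map) p).det| ≤ (K : ℝ) ^ n * √(C.G p).det := by
  by_cases h : DifferentiableAt ℝ (v ∘ C.map) p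
  · exact abs_det_le hn C K v hv p hp _ h.hasFDerivAt
  · rw [fderiv_zero_of_not_differentiableAt h, det_zero' hn, abs_zero]
    positivity

theorem measurable_det_fderiv {n : ℕ} (f : E n → E n) :
    Measurable fun p => (fderiv ℝ f p).det :=
  ContinuousLinearMap.continuous_det.measurable.comp (measurable_fderiv ℝ f)

/-- `√ det G` is integrable on `D` -/
theorem integrableOn_sqrt_det {n : ℕ} {M : Type} [MetricSpace M] (S : OFill n M)
    (hS : S.vol < ⊤) (i : S.ι) :
    IntegrableOn (fun p => √((S.chart i).G p).det) (S.chart i).D := by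
  have h1 : ∫⁻ p in (S.chart i).D, ENNReal.ofReal √((S.chart i).G p).det < ⊤ := by
    refine lt_of_le_of_lt ?_ hS
    unfold OFill.vol
    exact Finset.single_le_sum (f := fun i => ∫⁻ p in (S.chart i).D,
      ENNReal.ofReal √((S.chart i).G p).det) (fun _ _ => bot_le) (Finset.mem_univ i)
  have h2 : ContinuousOn (fun p => √((S.chart i).G p).det) (S.chart i).D := by
    have h3 : ContinuousOn (S.chart i).G (S.chart i).D :=
      (S.chart i).cont_G.mono (S.chart i).D_sub
    have h4 : Continuous fun A : Matrix (Fin n) (Fin n) ℝ => √A.det :=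
      Real.continuous_sqrt.comp (continuous_id.matrix_det)
    exact h4.comp_continuousOn h3
  refine ⟨h2.aestronglyMeasurable (S.chart i).meas_D, ?_⟩
  rw [hasFiniteIntegral_iff_ofReal (Eventually.of_forall fun _ => Real.sqrt_nonneg _)]
  exact h1

/-- (1) of CHA -/
theorem integrableOn_det_D {n : ℕ} (hn : 0 < n) {M : Type} [MetricSpace M] (S : OFill n M)
    (hS : S.vol < ⊤) (K : NNReal) (v : M → E n) (hv : LipschitzWith K v) (i : S.ι) :
    IntegrableOn (fun p => (fderiv ℝ (v ∘ (S.chart i).map) p).det) (S.chart i).D := by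
  refine Integrable.mono' ((integrableOn_sqrt_det S hS i).const_mul ((K : ℝ) ^ n))
    (measurable_det_fderiv _).aestronglyMeasurable ?_
  filter_upwards [ae_restrict_mem (S.chart i).meas_D] with p hp
  exact abs_det_fderiv_le hn _ K v hv p ((S.chart i).D_sub hp)

end Pool.Agent.N137.CPN
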